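import Mathlib
import Pool.Agent.W_ccb602_h89.Play

/-!
# Vertex Folkman property of intersection graphs of boxes in `ℝ³`

For all `c` and `k` there is a finite intersection graph of axis-aligned boxes in `ℝ³` with
clique number `c` such that every colouring of its vertices with `k` colours has a
monochromatic clique of size `c`.
-/

set_option autoImplicit false

namespace Pool.Agent.Results.MP_ccb602_co.FolkmanBoxes

open Pool.MP_ccb602_co.Folkman

/-- Lower corner of a box. -/
def lowC (b : Box) : Fin 3 → ℝ := ![b.x1, b.y1, b.z1]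

/-- Upper corner of a box. -/
def uppC (b : Box) : Fin 3 → ℝ := ![b.x2, b.y2, b.z2]

theorem low_le_upp {b : Box} (h : Ok b) : lowC b ≤ uppC b := by
  intro i
  fin_cases i
  · exact h.1
  · exact h.2.1
  · exact h.2.2.1

theorem inter_iff {a b : Box} (ha : Ok a) (hb : Ok b) :
    (Set.Icc (lowC a) (uppC a) ∩ Set.Icc (lowC b) (uppC b)).Nonempty ↔ Hit a b := by
  constructor
  · rintro ⟨p, ⟨h1, h2⟩, ⟨h3, h4⟩⟩
    have g1 := h1 0
    have g2 := h1 1
    have g3 := h1 2
    have g4 := h2 0
    have g5 := h2 1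
    have g6 := h2 2
    have g7 := h3 0
    have g8 := h3 1
    have g9 := h3 2
    have g10 := h4 0
    have g11 := h4 1
    have g12 := h4 2
    simp only [lowC, uppC, Matrix.cons_val_zero, Matrix.cons_val_one, Matrix.cons_val] at *
    refine ⟨?_, ?_, ?_, ?_, ?_, ?_⟩ <;> linarith
  · intro h
    obtain ⟨h1, h2, h3, h4, h5, h6⟩ := h
    obtain ⟨a1, a2, a3, -, -⟩ := ha
    obtain ⟨b1, b2, b3, -, -⟩ := hb
    refine ⟨![max a.x1 b.x1, max a.y1 b.y1, max a.z1 b.z1], ⟨?_, ?_⟩, ⟨?_, ?_⟩⟩
    · intro i; fin_cases i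
      · exact le_max_left _ _
      · exact le_max_left _ _
      · exact le_max_left _ _
    · intro i; fin_cases i
      · exact max_le a1 h2
      · exact max_le a2 h4
      · exact max_le a3 h6
    · intro i; fin_cases i
      · exact le_max_right _ _
      · exact le_max_right _ _
      · exact le_max_right _ _
    · intro i; fin_cases i
      · exact max_le h1 b1
      · exact max_le h3 b2
      · exact max_le h5 b3

theorem result : ∀ c k : ℕ, 1 ≤ c → 1 ≤ k →
    ∃ (n : ℕ) (G : SimpleGraph (Fin n)),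
      (∃ a b : Fin n → Fin 3 → ℝ, (∀ i, a i ≤ b i) ∧
        ∀ i j, i ≠ j → (G.Adj i j ↔ (Set.Icc (a i) (b i) ∩ Set.Icc (a j) (b j)).Nonempty)) ∧
      G.CliqueFree (c + 1) ∧
      ∀ col : Fin n → Fin k, ∃ s : Finset (Fin n), G.IsNClique c s ∧
        ∃ i, ∀ x ∈ s, col x = i := by
  classical
  intro c k hc hk
  have : NeZero k := ⟨by omega⟩
  obtain ⟨F, -, hok, hclq, hcol⟩ := good_nil (c := c) (k := k) hc (fun _ => (0 : Fin k))
  let e : Fin F.card ≃ F := F.equivFin.symm
  let f : Fin F.card → Box := fun i => (e i : Box)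
  have hf : Function.Injective f := Subtype.val_injective.comp e.injective
  have hfF : ∀ i, f i ∈ F := fun i => (e i).2
  let G : SimpleGraph (Fin F.card) :=
    { Adj := fun i j => i ≠ j ∧ Hit (f i) (f j)
      symm := ⟨fun i j h => ⟨h.1.symm, h.2.symm⟩⟩
      loopless := ⟨fun i h => h.1 rfl⟩ }
  refine ⟨F.card, G, ⟨fun i => lowC (f i), fun i => uppC (f i), fun i => low_le_upp (hok _ (hfF i)),
    ?_⟩, ?_, ?_⟩
  · intro i j hij
    rw [inter_iff (hok _ (hfF i)) (hok _ (hfF j))]
    exact ⟨fun h => h.2, fun h => ⟨hij, h⟩⟩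
  · intro s hs
    have h1 : (s.image f).card ≤ c := by
      apply hclq
      · intro b hb
        obtain ⟨i, -, rfl⟩ := Finset.mem_image.1 hb
        exact hfF i
      · intro a ha b hb
        obtain ⟨i, hi, rfl⟩ := Finset.mem_image.1 ha
        obtain ⟨j, hj, rfl⟩ := Finset.mem_image.1 hb
        by_cases hij : i = j
        · subst hij
          have h := hok _ (hfF i)
          exact ⟨h.1, h.1, h.2.1, h.2.1, h.2.2.1, h.2.2.1⟩
        · exact (hs.isClique hi hj hij).2
    rw [Finset.card_image_of_injective _ hf, hs.card_eq] at h1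
    omega
  · intro col
    obtain ⟨s, hs, hsc, hcard, i, hi⟩ := hcol
      (fun b => if h : b ∈ F then col (e.symm ⟨b, h⟩) else 0) (by simp)
    refine ⟨Finset.univ.filter fun x => f x ∈ s, ⟨?_, ?_⟩, i, ?_⟩
    · intro x hx y hy hxy
      simp only [Finset.coe_filter, Finset.mem_univ, true_and, Set.mem_ofPred_eq] at hx hy
      exact ⟨hxy, hsc _ hx _ hy⟩
    · rw [← hcard, ← Finset.card_image_of_injective _ hf]
      congr 1
      ext b
      simp only [Finset.mem_image, Finset.mem_filter, Finset.mem_univ, true_and]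
      constructor
      · rintro ⟨x, hx, rfl⟩; exact hx
      · intro hb
        refine ⟨e.symm ⟨b, hs hb⟩, ?_, ?_⟩
        · simp only [f, Equiv.apply_symm_apply]; exact hb
        · simp only [f, Equiv.apply_symm_apply]
    · intro x hx
      simp only [Finset.mem_filter, Finset.mem_univ, true_and] at hx
      have h1 := hi _ hx
      simp only [hfF x, dif_pos] at h1
      have h2 : (⟨f x, hfF x⟩ : F) = e x := rfl
      rw [h2, Equiv.symm_apply_apply] at h1
      exact h1

end Pool.Agent.Results.MP_ccb602_co.FolkmanBoxes
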