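import Pool.Agent.W_ccb602.LOMain

/-!
# MP_ccb602_co: box graphs without long odd holes are polynomially chi-bounded

Proof.  Fix `ℓ ≥ 5` and let `G` have no induced cycle of odd length `≥ ℓ`; `n` bounds `χ(G[N(v)])` for all `v`.  A pair
`(A, B)` is nice (`LO.Nice`) if `A` is stable, covers `B`, and there are sets `S(x)`, `x ∈ B`, nested along the edges of
`B`, such that two parents in `A` of vertices with comparable sets are not joined through `B` by induced paths of
odd length `≥ ℓ`.

(I) `LO.step`: `χ(G)` is bounded by a polynomial in `n`, `ω` and the largest `χ(B)` of a nice pair.  Balls of
bounded radius: colour the vertices of a shortest path to the centre; in a class the levels are stable and the pair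
of the last two levels is nice.  In general take breadth-first levels in which every vertex of a lower level
has a private child.  Away from a ball, the low levels have few colours, because all induced paths to a fixed vertex have one
parity.  With the colours of the last `2 ℓ` ancestors these levels become stable, so that any two vertices of the
level `k - ℓ` are joined by a long induced path through the top; hence all induced paths between them in the lower levels
have one parity `J`.  A lemma on five terminals in a connected graph (`LO.pent`) shows that `J` has no induced `P_4`
on a class, and the order given by this makes the sets of ancestors in the level `k - ℓ` nested along edges, after a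
splitting into `ω X ^ 2` sets (`X` bounds the balls of radius `ℓ`).  The last two levels then form a nice pair.

(II) `LO.killL`: in a nice pair of boxes the arcs of one of finitely many relations between intersecting boxes get labels;
along a directed path of one label the parent of the last vertex meets all vertices from the index `(ℓ + 2) ω` on
(`LO.path`), because otherwise there are induced paths of all lengths between two parents; so the relation restricted to
a label class is closed in one more coordinate direction, and after boundedly many applications of (I) no edge is
left (`LO.long_boxes`).  Finally `n` is bounded by a polynomial in `ω` by induction on the number of coordinates.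
-/

namespace Pool.Agent.Results.MP_ccb602_co.LongOddHoles

/-- For every `d` and `ℓ` there are `c` and `e` such that every intersection graph `G` of finitely many axis-aligned
boxes in `ℝ ^ d` which has no odd hole of length at least `ℓ` (no induced cycle whose length is odd, at least five and at
least `ℓ`) satisfies `χ(G) ≤ c (ω(G) + 1) ^ e`. -/
theorem result (d ℓ : ℕ) : ∃ c e : ℕ, ∀ (n : ℕ) (G : SimpleGraph (Fin n))
    (a b : Fin n → Fin d → ℝ), (∀ i, a i ≤ b i) →
    (∀ i j, i ≠ j → (G.Adj i j ↔ (Set.Icc (a i) (b i) ∩ Set.Icc (a j) (b j)).Nonempty)) →
    (∀ m : ℕ, ℓ ≤ 2 * m + 5 → IsEmpty (SimpleGraph.cycleGraph (2 * m + 5) ↪g G)) →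
      G.chromaticNumber ≤ ((c * (G.cliqueNum + 1) ^ e : ℕ) : ℕ∞) := by
  obtain ⟨c, e, h⟩ := LO.main d (ℓ + 5)
  refine ⟨c, e, fun n G a b hab hG hodd => h n G a b hab ?_ ?_⟩
  · intro i j
    constructor
    · intro hij
      exact ⟨G.ne_of_adj hij, (Box85.hit_iff hab i j).1 ((hG i j (G.ne_of_adj hij)).1 hij)⟩
    · rintro ⟨hne, hhit⟩
      exact (hG i j hne).2 ((Box85.hit_iff hab i j).2 hhit)
  · intro m hm
    obtain ⟨s, rfl⟩ : ∃ s, m = s + 1 := ⟨m - 1, by omega⟩
    exact hodd s (by omega)

end Pool.Agent.Results.MP_ccb602_co.LongOddHoles
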