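import Pool.Agent.W_ccb602.Halve

/-!
# MP_ccb602_co: box graphs whose bad pairs have a covering without long induced monotone paths

Proof.  (1) Pairs `u, v` such that one box contains a corner of the other form a degenerate graph, and pairs which are
nested in every coordinate form comparability graphs whose chains are cliques; after polynomially many parts only bad
pairs remain.  (2) For every pattern `τ` of the order of the left and of the right ends in the `d` coordinates
the relation `u < v` is transitive, and if `u < v < w` and `u, w` intersect, then `v` meets both: chains
between two intersecting boxes are cliques.  Let `L` be the largest number of steps of such a chain.  If two arcs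
`u → v → w` of one pattern have chains with at least `L / 2` steps each, then `u` and `w` do not intersect; hence
the long arcs of one pattern and one class have no directed path with `p` arcs, because such a path would have no
chord.  So `p` colours for each pattern and class destroy all long arcs, and `L` is halved.  After `log ω` rounds no
arc is left.
-/

set_option autoImplicit false

namespace Pool.Agent.Results.MP_ccb602_co.MonotonePaths

open Box85

/-- For all `d`, `m` and `p` there are `c` and `e` such that the following holds.  Let `G` be the intersection
graph of boxes in `ℝ ^ d`, and let `A 0, ..., A (m - 1)` be sets of ordered pairs of boxes such that for every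
bad pair `u, v` one of `(u, v)`, `(v, u)` belongs to some `A q`, and such that no `A q` has an induced
monotone directed path with `p` arcs.  Then `χ(G) ≤ c (ω(G) + 1) ^ e`. -/
theorem result (d m p : ℕ) : ∃ c e : ℕ, ∀ (n : ℕ) (G : SimpleGraph (Fin n))
    (a b : Fin n → Fin d → ℝ), (∀ i, a i ≤ b i) →
    (∀ i j, i ≠ j → (G.Adj i j ↔ (Set.Icc (a i) (b i) ∩ Set.Icc (a j) (b j)).Nonempty)) →
    ∀ A : Fin m → Fin n → Fin n → Prop,
    (∀ u v, Bad a b u v → ∃ q, A q u v ∨ A q v u) → (∀ q, NoPath G a b p (A q)) →
      G.chromaticNumber ≤ ((c * (G.cliqueNum + 1) ^ e : ℕ) : ℕ∞) := by
  obtain ⟨c, e, h⟩ := poly d m p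
  refine ⟨c, e, fun n G a b hab hG A hA hP => h n G a b hab ?_ A hA hP⟩
  intro i j
  constructor
  · intro hij
    exact ⟨G.ne_of_adj hij, (hit_iff hab i j).1 ((hG i j (G.ne_of_adj hij)).1 hij)⟩
  · rintro ⟨hne, hhit⟩
    exact (hG i j hne).2 ((hit_iff hab i j).2 hhit)

end Pool.Agent.Results.MP_ccb602_co.MonotonePaths
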