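import Pool.Agent.W_ccb602.Trees

/-!
# MP_ccb602_co: box graphs without induced monotone arborescences

Proof.  (1) Pairs `u, v` such that one box contains a corner of the other form a degenerate graph, and pairs which are
nested in every coordinate form comparability graphs whose chains are cliques; after polynomially many parts only bad
pairs remain.  (2) Fix a part and a pattern `τ` of the order of the left and of the right ends, and colour by
First-Fit along the arcs of pattern `τ`.  The set `D` of in-neighbours of a vertex `w` is closed: an in-neighbour of a
member of `D` which meets `w` belongs to `D`, and monotone chains inside `D` are cliques.  If `w` has a large colour,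
then many members `v` of `D` see many colours on in-neighbours of `v` which do not meet `w`: otherwise one descends
from the member with the largest colour and obtains a clique with more than `ω` vertices.  Among many boxes meeting
each other little there are `N` pairwise disjoint ones, and everything of this pattern below two disjoint in-neighbours
of `w` is disjoint.  Hence a large colour forces an induced complete `N`-ary tree of height `h`.
-/

set_option autoImplicit false

namespace Pool.Agent.Results.MP_ccb602_co.MonotoneTrees

open Box85 Tree57

/-- For all `d`, `h` and `N` there are `c` and `e` such that the following holds.  Let `G` be the intersection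
graph of finitely many boxes in `ℝ ^ d`.  Suppose that for every pattern `τ` there is no induced complete `N`-ary tree
of height `h` in `G` all of whose pairs (child, parent) are bad pairs of pattern `τ`, or there is no induced complete
`N`-ary tree of height `h` all of whose pairs (child, parent) are bad pairs of the reversed pattern (equivalently,
all of whose pairs (parent, child) are bad pairs of pattern `τ`).  Then `χ(G) ≤ c (ω(G) + 1) ^ e`. -/
theorem result (d h N : ℕ) : ∃ c e : ℕ, ∀ (n : ℕ) (G : SimpleGraph (Fin n))
    (a b : Fin n → Fin d → ℝ), (∀ i, a i ≤ b i) →
    (∀ i j, i ≠ j → (G.Adj i j ↔ (Set.Icc (a i) (b i) ∩ Set.Icc (a j) (b j)).Nonempty)) →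
    (∀ τ : Fin d → Bool × Bool, (∀ f : List (Fin N) → Fin n, ¬ IsTree G a b h N τ f) ∨
      ∀ f : List (Fin N) → Fin n, ¬ IsTree G a b h N (rev τ) f) →
      G.chromaticNumber ≤ ((c * (G.cliqueNum + 1) ^ e : ℕ) : ℕ∞) := by
  obtain ⟨c, e, hce⟩ := poly d h N
  refine ⟨c, e, fun n G a b hab hG hfree => hce n G a b hab ?_ hfree⟩
  intro i j
  constructor
  · intro hij
    exact ⟨G.ne_of_adj hij, (hit_iff hab i j).1 ((hG i j (G.ne_of_adj hij)).1 hij)⟩
  · rintro ⟨hne, hhit⟩
    exact (hG i j hne).2 ((hit_iff hab i j).2 hhit)

end Pool.Agent.Results.MP_ccb602_co.MonotoneTrees
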